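import Pool.Agent.H337R2.Cx4

/-!
# The balanced kernel `2 π sin (π b) / (cos (π b) + cosh (2 π y))`
-/

open Polynomial Pool.Agent.H337R2

namespace Pool.Agent.H387R3.QG

noncomputable section

/-- the kernel -/
def kerb (b y : ℝ) : ℝ := Real.sin (Real.pi * b) / (Real.cos (Real.pi * b) + Real.cosh (2 * Real.pi * y))

lemma kerb_den {b : ℝ} (hb0 : 0 < b) (hb1 : b < 1) (y : ℝ) :
    0 < Real.cos (Real.pi * b) + Real.cosh (2 * Real.pi * y) := by
  have h1 : -1 < Real.cos (Real.pi * b) := by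
    rw [← Real.cos_pi]
    apply Real.cos_lt_cos_of_nonneg_of_le_pi (by have := Real.pi_pos; positivity) le_rfl
    have := Real.pi_pos
    nlinarith
  have h2 := Real.one_le_cosh (2 * Real.pi * y)
  linarith

lemma V_bound {b : ℝ} (hb0 : 0 < b) (hb1 : b < 1) (j : ℤ) :
    (1 - b) / 4 * (|(j : ℝ)| + 1) ≤ |(j : ℝ) - 1 / 2 - b / 2| ∧
    (1 - b) / 4 * (|(j : ℝ)| + 1) ≤ |(j : ℝ) - 1 / 2 + b / 2| := by
  rcases le_or_gt 1 j with h | h
  · have h' : (1 : ℝ) ≤ j := by exact_mod_cast h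
    rw [abs_of_nonneg (by linarith : (0 : ℝ) ≤ j), abs_of_pos (by linarith), abs_of_pos (by linarith)]
    constructor <;> nlinarith
  · have h' : (j : ℝ) ≤ 0 := by exact_mod_cast (by omega : j ≤ 0)
    rw [abs_of_nonpos h', abs_of_neg (by linarith), abs_of_neg (by linarith)]
    constructor <;> nlinarith

lemma V_ne {b : ℝ} (hb0 : 0 < b) (hb1 : b < 1) (j : ℤ) :
    (j : ℝ) - 1 / 2 - b / 2 ≠ 0 ∧ (j : ℝ) - 1 / 2 + b / 2 ≠ 0 := by
  obtain ⟨h1, h2⟩ := V_bound hb0 hb1 j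
  have h3 : 0 < (1 - b) / 4 * (|(j : ℝ)| + 1) := by
    have := abs_nonneg (j : ℝ)
    apply mul_pos <;> linarith
  constructor
  · intro h; rw [h, abs_zero] at h1; linarith
  · intro h; rw [h, abs_zero] at h2; linarith

lemma li_diff {V W : ℝ} (hV : V ≠ 0) (hW : W ≠ 0) (y : ℝ) :
    li V y - li W y = ((W - V : ℝ) : ℂ) * (li V y * li W y) := by
  unfold li
  have n1 : (V : ℂ) + y * Complex.I ≠ 0 := lf_ne hV y
  have n2 : (W : ℂ) + y * Complex.I ≠ 0 := lf_ne hW y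
  field_simp
  push_cast
  ring

lemma B0k_summable {b : ℝ} (hb0 : 0 < b) (hb1 : b < 1) (y : ℝ) :
    Summable (fun j : ℤ => li ((j : ℝ) - 1 / 2 - b / 2) y - li ((j : ℝ) - 1 / 2 + b / 2) y) := by
  have hδ : 0 < (1 - b) / 4 := by linarith
  apply Summable.of_norm
  refine Summable.of_nonneg_of_le (fun _ => norm_nonneg _) (fun j => ?_)
    (summable_abs_sq.mul_left (((1 - b) / 4)⁻¹ ^ 2))
  obtain ⟨a1, a2⟩ := V_bound hb0 hb1 j
  obtain ⟨n1, n2⟩ := V_ne hb0 hb1 j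
  have h3 : 0 < |(j : ℝ)| + 1 := by positivity
  have b1 := norm_li_le_inv n1 y
  have b2 := norm_li_le_inv n2 y
  have b3 : |(j : ℝ) - 1 / 2 - b / 2|⁻¹ ≤ ((1 - b) / 4 * (|(j : ℝ)| + 1))⁻¹ := inv_anti₀ (by positivity) a1
  have b4 : |(j : ℝ) - 1 / 2 + b / 2|⁻¹ ≤ ((1 - b) / 4 * (|(j : ℝ)| + 1))⁻¹ := inv_anti₀ (by positivity) a2
  rw [li_diff n1 n2, norm_mul, norm_mul, Complex.norm_real, Real.norm_eq_abs]
  have e1 : ((j : ℝ) - 1 / 2 + b / 2) - ((j : ℝ) - 1 / 2 - b / 2) = b := by ring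
  rw [e1, abs_of_pos hb0]
  calc b * (‖li ((j : ℝ) - 1 / 2 - b / 2) y‖ * ‖li ((j : ℝ) - 1 / 2 + b / 2) y‖)
      ≤ 1 * (((1 - b) / 4 * (|(j : ℝ)| + 1))⁻¹ * ((1 - b) / 4 * (|(j : ℝ)| + 1))⁻¹) := by
        apply mul_le_mul hb1.le _ (by positivity) zero_le_one
        exact mul_le_mul (b1.trans b3) (b2.trans b4) (norm_nonneg _) (by positivity)
    _ = ((1 - b) / 4)⁻¹ ^ 2 * (1 / (|(j : ℝ)| + 1) ^ 2) := by
        rw [mul_inv, one_div, ← inv_pow]; ring

open Complex in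
lemma B0k_mem (y : ℝ) (c : ℝ) (hc0 : -1 < c) (hc1 : c < 0) :
    ((c : ℂ) + y * I) ∈ Complex.integerComplement := by
  rw [Complex.mem_integerComplement_iff]
  rintro ⟨n, hn⟩
  have h := congrArg Complex.re hn
  simp at h
  have h1 : ((-1 : ℤ) : ℝ) < n := by rw [h]; push_cast; exact hc0
  have h2 : (n : ℝ) < ((0 : ℤ) : ℝ) := by rw [h]; push_cast; exact hc1
  have h3 : (-1 : ℤ) < n := by exact_mod_cast h1
  have h4 : n < 0 := by exact_mod_cast h2
  omega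

open Complex in
lemma cos_ne_aux (b y : ℝ) :
    2 * (Complex.cos (Real.pi * (b / 2 + y * I)) * Complex.cos (Real.pi * (b / 2 - y * I))) =
      ((Real.cos (Real.pi * b) + Real.cosh (2 * Real.pi * y) : ℝ) : ℂ) := by
  have e1 : Complex.cos (Real.pi * b) = Complex.cos (Real.pi * (b / 2 + y * I) + Real.pi * (b / 2 - y * I)) := by
    congr 1; ring
  have e2 : Complex.cosh (2 * Real.pi * y) =
      Complex.cos (Real.pi * (b / 2 + y * I) - Real.pi * (b / 2 - y * I)) := by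
    rw [← Complex.cos_mul_I]
    congr 1; ring
  push_cast
  rw [e1, e2, Complex.cos_add, Complex.cos_sub]
  ring

open Complex in
lemma B0k_trig {b : ℝ} (hb0 : 0 < b) (hb1 : b < 1) (y : ℝ) :
    (Real.pi * cot (Real.pi * (((-1 / 2 - b / 2 : ℝ) : ℂ) + y * I)) -
      Real.pi * cot (Real.pi * (((-1 / 2 + b / 2 : ℝ) : ℂ) + y * I))) =
      ((2 * Real.pi * kerb b y : ℝ) : ℂ) := by
  have hd := kerb_den hb0 hb1 y
  have hc := cos_ne_aux b y
  set p : ℂ := Real.pi * (b / 2 + y * I) with hp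
  set q : ℂ := Real.pi * (b / 2 - y * I) with hq
  have hne : ((Real.cos (Real.pi * b) + Real.cosh (2 * Real.pi * y) : ℝ) : ℂ) ≠ 0 := by
    exact_mod_cast hd.ne'
  have hcp : Complex.cos p ≠ 0 := by
    intro h; rw [h] at hc; apply hne; rw [← hc]; ring
  have hcq : Complex.cos q ≠ 0 := by
    intro h; rw [h] at hc; apply hne; rw [← hc]; ring
  have e1 : (Real.pi : ℂ) * (((-1 / 2 - b / 2 : ℝ) : ℂ) + y * I) = -(q + Real.pi / 2) := by
    rw [hq]; push_cast; ring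
  have e2 : (Real.pi : ℂ) * (((-1 / 2 + b / 2 : ℝ) : ℂ) + y * I) = p - Real.pi / 2 := by
    rw [hp]; push_cast; ring
  have e3 : Complex.sin (Real.pi * b) = Complex.sin p * Complex.cos q + Complex.cos p * Complex.sin q := by
    rw [← Complex.sin_add]
    congr 1
    rw [hp, hq]; ring
  rw [e1, e2, Complex.cot, Complex.cot, Complex.sin_neg, Complex.cos_neg, Complex.sin_add_pi_div_two,
    Complex.cos_add_pi_div_two, Complex.sin_sub_pi_div_two, Complex.cos_sub_pi_div_two]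
  unfold kerb
  push_cast
  push_cast at hc
  rw [e3, ← hc]
  field_simp
  ring

open Complex in
theorem B0_kernel {b : ℝ} (hb0 : 0 < b) (hb1 : b < 1) (y : ℝ) :
    HasSum (fun j : ℤ => li ((j : ℝ) - 1 / 2 - b / 2) y - li ((j : ℝ) - 1 / 2 + b / 2) y)
      ((2 * Real.pi * kerb b y : ℝ) : ℂ) := by
  set f : ℤ → ℂ := fun j => li ((j : ℝ) - 1 / 2 - b / 2) y - li ((j : ℝ) - 1 / 2 + b / 2) y with hf
  have hs : Summable f := B0k_summable hb0 hb1 y
  have h1 := hs.hasSum.nat_add_neg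
  have h2 := (hasSum_nat_add_iff' (f := fun n : ℕ => f n + f (-n)) 1).2 h1
  have m1 : (((-1 / 2 - b / 2 : ℝ) : ℂ) + y * I) ∈ Complex.integerComplement :=
    B0k_mem y _ (by linarith) (by linarith)
  have m2 : (((-1 / 2 + b / 2 : ℝ) : ℂ) + y * I) ∈ Complex.integerComplement :=
    B0k_mem y _ (by linarith) (by linarith)
  have s1 := (summable_cotTerm m1).hasSum
  have s2 := (summable_cotTerm m2).hasSum
  have t1 := cot_series_rep' m1
  have t2 := cot_series_rep' m2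
  rw [← t1] at s1
  rw [← t2] at s2
  have h3 := s1.sub s2
  have hff : ∀ j : ℤ, f j = 1 / ((((-1 / 2 - b / 2 : ℝ) : ℂ) + y * I) + (j : ℂ)) -
      1 / ((((-1 / 2 + b / 2 : ℝ) : ℂ) + y * I) + (j : ℂ)) := by
    intro j
    simp only [hf]
    unfold li
    rw [one_div, one_div]
    congr 2
    · push_cast; ring
    · push_cast; ring
  have h4 : (fun n : ℕ => f ((n + 1 : ℕ) : ℤ) + f (-((n + 1 : ℕ) : ℤ))) = fun n : ℕ =>
      (cotTerm (((-1 / 2 - b / 2 : ℝ) : ℂ) + y * I) n - cotTerm (((-1 / 2 + b / 2 : ℝ) : ℂ) + y * I) n) := by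
    funext n
    rw [hff, hff]
    unfold cotTerm
    push_cast
    ring
  have h5 := h2.unique (h4 ▸ h3)
  have h6 : f 0 = 1 / (((-1 / 2 - b / 2 : ℝ) : ℂ) + y * I) - 1 / (((-1 / 2 + b / 2 : ℝ) : ℂ) + y * I) := by
    rw [hff]
    simp
  have h7 : ∑' j, f j = ((2 * Real.pi * kerb b y : ℝ) : ℂ) := by
    rw [← B0k_trig hb0 hb1 y]
    simp only [Finset.range_one, Finset.sum_singleton, Nat.cast_zero, neg_zero] at h5
    rw [h6] at h5
    linear_combination h5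
  rw [← h7]
  exact hs.hasSum

end

end Pool.Agent.H387R3.QG
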