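import Pool.Agent.H387R3.QG.B0k

/-!
# The integral against the balanced kernel
-/

open Polynomial Pool.Agent.H337R2 Filter Topology MeasureTheory

namespace Pool.Agent.H387R3.QG

noncomputable section

lemma cosh_ge (x : ℝ) : 1 + x ^ 2 / 2 ≤ Real.cosh x := by
  have h1 : Real.cosh x = 1 + 2 * Real.sinh (x / 2) ^ 2 := by
    have h2 := Real.cosh_two_mul (x / 2)
    have h3 := Real.cosh_sq (x / 2)
    have h4 : 2 * (x / 2) = x := by ring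
    rw [h4] at h2
    rw [h2, h3]
    ring
  rw [h1]
  have h5 : (x / 2) ^ 2 ≤ Real.sinh (x / 2) ^ 2 := by
    rw [sq_le_sq]
    rcases le_total 0 (x / 2) with h | h
    · rw [abs_of_nonneg h, abs_of_nonneg (Real.sinh_nonneg_iff.2 h)]
      exact Real.self_le_sinh_iff.2 h
    · rw [abs_of_nonpos h, abs_of_nonpos (Real.sinh_nonpos_iff.2 h)]
      have := Real.sinh_le_self_iff.2 h
      linarith
  nlinarith

/-- `1 + cos (π b) > 0` -/
lemma onecos {b : ℝ} (hb0 : 0 < b) (hb1 : b < 1) : 0 < 1 + Real.cos (Real.pi * b) := by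
  have h1 := kerb_den hb0 hb1 0
  rw [mul_zero, Real.cosh_zero] at h1
  linarith

/-- the kernel is at most `C / cosh (2 π y)` -/
lemma kerb_le {b : ℝ} (hb0 : 0 < b) (hb1 : b < 1) (y : ℝ) :
    |kerb b y| ≤ (1 + (1 + Real.cos (Real.pi * b))⁻¹) * (Real.cosh (2 * Real.pi * y))⁻¹ := by
  have h0 := onecos hb0 hb1
  have h1 := kerb_den hb0 hb1 y
  have h2 := Real.one_le_cosh (2 * Real.pi * y)
  unfold kerb
  rw [abs_div, abs_of_pos h1, div_le_iff₀ h1]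
  have h3 := Real.abs_sin_le_one (Real.pi * b)
  set c := Real.cos (Real.pi * b) with hc
  set ch := Real.cosh (2 * Real.pi * y) with hch
  have h4 : 1 ≤ (1 + (1 + c)⁻¹) * ch⁻¹ * (c + ch) := by
    have h5 : (1 + (1 + c)⁻¹) * ch⁻¹ * (c + ch) = (1 + (1 + c)⁻¹) * (c + ch) / ch := by
      field_simp
    rw [h5, le_div_iff₀ (by linarith)]
    have h6 : (1 + c)⁻¹ * (1 + c) = 1 := inv_mul_cancel₀ h0.ne'
    have h7 : 0 < (1 + c)⁻¹ := inv_pos.2 h0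
    nlinarith
  linarith

lemma kerb_le_inv {b : ℝ} (hb0 : 0 < b) (hb1 : b < 1) (y : ℝ) :
    |kerb b y| ≤ (1 + (1 + Real.cos (Real.pi * b))⁻¹) * (1 + y ^ 2)⁻¹ := by
  have h0 := onecos hb0 hb1
  refine (kerb_le hb0 hb1 y).trans ?_
  apply mul_le_mul_of_nonneg_left _ (by positivity)
  apply inv_anti₀ (by positivity)
  refine le_trans ?_ (cosh_ge _)
  have h : (3 : ℝ) ≤ Real.pi := Real.pi_gt_three.le
  have h2 : (9 : ℝ) ≤ Real.pi ^ 2 := by nlinarith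
  rw [mul_pow, mul_pow]
  nlinarith [sq_nonneg y]

lemma kerb_continuous {b : ℝ} (hb0 : 0 < b) (hb1 : b < 1) : Continuous (kerb b) := by
  unfold kerb
  apply Continuous.div (by fun_prop)
  · apply Continuous.add (by fun_prop)
    exact Real.continuous_cosh.comp (by fun_prop)
  · intro y
    exact (kerb_den hb0 hb1 y).ne'

lemma li_le_one {A : ℝ} (hA : 1 ≤ A) (y : ℝ) : ‖li A y‖ ≤ (Real.sqrt (1 + y ^ 2))⁻¹ := by
  unfold li
  rw [norm_inv, norm_lf]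
  apply inv_anti₀ (by positivity)
  apply Real.sqrt_le_sqrt
  nlinarith

lemma sqrt_one (y : ℝ) : (Real.sqrt (1 + y ^ 2))⁻¹ ≤ 1 := by
  apply inv_le_one_of_one_le₀
  rw [Real.one_le_sqrt]
  nlinarith [sq_nonneg y]

lemma li_pow_le {A : ℝ} (hA : 1 ≤ A) (y : ℝ) {i : ℕ} (hi : 1 ≤ i) :
    ‖li A y ^ i‖ ≤ (Real.sqrt (1 + y ^ 2))⁻¹ := by
  rw [norm_pow]
  calc ‖li A y‖ ^ i ≤ ((Real.sqrt (1 + y ^ 2))⁻¹) ^ i :=
        pow_le_pow_left₀ (norm_nonneg _) (li_le_one hA y) i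
    _ ≤ ((Real.sqrt (1 + y ^ 2))⁻¹) ^ 1 :=
        pow_le_pow_of_le_one (by positivity) (sqrt_one y) hi
    _ = _ := pow_one _

lemma ker_integrable {b : ℝ} (hb0 : 0 < b) (hb1 : b < 1) {A : ℝ} (hA : 1 ≤ A) {i : ℕ} (hi : 1 ≤ i) :
    Integrable (fun y : ℝ => li A y ^ i * ((kerb b y : ℝ) : ℂ)) := by
  refine Integrable.mono' (integrable_inv_one_add_sq.const_mul (1 + (1 + Real.cos (Real.pi * b))⁻¹)) ?_
    (Filter.Eventually.of_forall fun y => ?_)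
  · apply Continuous.aestronglyMeasurable
    apply ((li_continuous (by linarith : A ≠ 0)).pow i).mul
    exact Complex.continuous_ofReal.comp (kerb_continuous hb0 hb1)
  · rw [norm_mul, Complex.norm_real, Real.norm_eq_abs]
    calc ‖li A y ^ i‖ * |kerb b y| ≤ 1 * |kerb b y| := by
          apply mul_le_mul_of_nonneg_right _ (abs_nonneg _)
          exact (li_pow_le hA y hi).trans (sqrt_one y)
      _ = |kerb b y| := one_mul _
      _ ≤ _ := kerb_le_inv hb0 hb1 y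

lemma li_norm_c (V c y : ℝ) (hc : 0 < c) (h : c ≤ |V|) :
    ‖li V y‖ ≤ (Real.sqrt (c ^ 2 + y ^ 2))⁻¹ := by
  unfold li
  rw [norm_inv, norm_lf]
  apply inv_anti₀ (by positivity)
  apply Real.sqrt_le_sqrt
  have : c ^ 2 ≤ V ^ 2 := by
    rw [← sq_abs V]
    exact pow_le_pow_left₀ hc.le h 2
  linarith

/-- domination -/
lemma dom {b : ℝ} (hb0 : 0 < b) (hb1 : b < 1) {A : ℝ} (hA : 1 ≤ A) {i : ℕ} (hi : 1 ≤ i) (j : ℤ) (y : ℝ) :
    ‖li A y ^ i * (li ((j : ℝ) - 1 / 2 - b / 2) y - li ((j : ℝ) - 1 / 2 + b / 2) y)‖ ≤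
      (((1 - b) / 4) ^ 2)⁻¹ * (|(j : ℝ)| + 1) ^ (-(3 / 2) : ℝ) * (1 + ‖y‖ ^ 2) ^ (-(3 / 2) / 2 : ℝ) := by
  obtain ⟨h1, h2⟩ := V_bound hb0 hb1 j
  obtain ⟨n1, n2⟩ := V_ne hb0 hb1 j
  obtain ⟨δ, hδ⟩ : ∃ δ : ℝ, δ = (1 - b) / 4 := ⟨_, rfl⟩
  have hδ0 : 0 < δ := by rw [hδ]; linarith
  have hδ1 : δ ≤ 1 := by rw [hδ]; linarith
  obtain ⟨d, hd⟩ : ∃ d : ℝ, d = |(j : ℝ)| + 1 := ⟨_, rfl⟩
  rw [← hd, ← hδ] at h1 h2
  rw [← hd, ← hδ]
  have hd1 : 1 ≤ d := by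
    rw [hd]
    linarith [abs_nonneg (j : ℝ)]
  rw [li_diff n1 n2, norm_mul, norm_mul, norm_mul, Complex.norm_real, Real.norm_eq_abs]
  have e1 : ((j : ℝ) - 1 / 2 + b / 2) - ((j : ℝ) - 1 / 2 - b / 2) = b := by ring
  rw [e1, abs_of_pos hb0]
  have k1 := li_pow_le hA y hi
  have k2 := li_norm_c _ (δ * d) y (by positivity) h1
  have k3 := li_norm_c _ (δ * d) y (by positivity) h2
  have hs : 0 < (δ * d) ^ 2 + y ^ 2 := by positivity
  have k4 : ‖li ((j : ℝ) - 1 / 2 - b / 2) y‖ * ‖li ((j : ℝ) - 1 / 2 + b / 2) y‖ ≤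
      ((δ * d) ^ 2 + y ^ 2)⁻¹ := by
    calc _ ≤ (Real.sqrt ((δ * d) ^ 2 + y ^ 2))⁻¹ * (Real.sqrt ((δ * d) ^ 2 + y ^ 2))⁻¹ :=
          mul_le_mul k2 k3 (norm_nonneg _) (by positivity)
      _ = _ := by rw [← mul_inv, Real.mul_self_sqrt hs.le]
  have k5 : ((δ * d) ^ 2 + y ^ 2)⁻¹ ≤ (δ ^ 2)⁻¹ * (d ^ 2 + y ^ 2)⁻¹ := by
    rw [← mul_inv]
    apply inv_anti₀ (by positivity)
    have : δ ^ 2 ≤ 1 := by nlinarith
    nlinarith [sq_nonneg y]
  have hy : ‖y‖ ^ 2 = y ^ 2 := by rw [Real.norm_eq_abs, sq_abs]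
  have h1y : (0 : ℝ) < 1 + y ^ 2 := by positivity
  have k6 : (d ^ 2 + y ^ 2)⁻¹ ≤ d ^ (-(3 / 2) : ℝ) * (1 + y ^ 2) ^ (-(1 / 4) : ℝ) := by
    have hdy : (0 : ℝ) < d ^ 2 + y ^ 2 := by positivity
    have e1 : (d ^ 2 + y ^ 2)⁻¹ = (d ^ 2 + y ^ 2) ^ (-(3 / 4) : ℝ) *
        (d ^ 2 + y ^ 2) ^ (-(1 / 4) : ℝ) := by
      rw [← Real.rpow_add hdy, ← Real.rpow_neg_one]
      norm_num
    rw [e1]
    have e2 : d ^ (-(3 / 2) : ℝ) = (d ^ 2) ^ (-(3 / 4) : ℝ) := by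
      rw [← Real.rpow_natCast d 2, ← Real.rpow_mul (by linarith)]
      norm_num
    rw [e2]
    apply mul_le_mul
    · apply Real.rpow_le_rpow_of_nonpos (by positivity) _ (by norm_num)
      nlinarith [sq_nonneg y]
    · apply Real.rpow_le_rpow_of_nonpos (by positivity) _ (by norm_num)
      nlinarith
    · positivity
    · positivity
  have k7 : (Real.sqrt (1 + y ^ 2))⁻¹ = (1 + y ^ 2) ^ (-(1 / 2) : ℝ) := by
    rw [Real.sqrt_eq_rpow, ← Real.rpow_neg h1y.le]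
  have k8 : (1 + ‖y‖ ^ 2) ^ (-(3 / 2) / 2 : ℝ) =
      (1 + y ^ 2) ^ (-(1 / 2) : ℝ) * (1 + y ^ 2) ^ (-(1 / 4) : ℝ) := by
    rw [hy, ← Real.rpow_add h1y]
    norm_num
  rw [k8]
  rw [k7] at k1
  calc ‖li A y ^ i‖ * (b * (‖li ((j : ℝ) - 1 / 2 - b / 2) y‖ * ‖li ((j : ℝ) - 1 / 2 + b / 2) y‖))
      ≤ (1 + y ^ 2) ^ (-(1 / 2) : ℝ) *
        ((δ ^ 2)⁻¹ * (d ^ (-(3 / 2) : ℝ) * (1 + y ^ 2) ^ (-(1 / 4) : ℝ))) := by
        apply mul_le_mul k1 _ (by positivity) (by positivity)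
        calc b * (‖li ((j : ℝ) - 1 / 2 - b / 2) y‖ * ‖li ((j : ℝ) - 1 / 2 + b / 2) y‖)
            ≤ 1 * (‖li ((j : ℝ) - 1 / 2 - b / 2) y‖ * ‖li ((j : ℝ) - 1 / 2 + b / 2) y‖) :=
              mul_le_mul_of_nonneg_right hb1.le (by positivity)
          _ = _ := one_mul _
          _ ≤ _ := k4
          _ ≤ _ := k5
          _ ≤ _ := mul_le_mul_of_nonneg_left k6 (by positivity)
    _ = _ := by ring

lemma summable32 : Summable (fun j : ℤ => (|(j : ℝ)| + 1) ^ (-(3 / 2) : ℝ)) := by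
  have h1 : Summable (fun n : ℕ => ((n : ℝ) + 1) ^ (-(3 / 2) : ℝ)) := by
    have h2 : Summable (fun n : ℕ => (n : ℝ) ^ (-(3 / 2) : ℝ)) :=
      Real.summable_nat_rpow.2 (by norm_num)
    have h3 := (summable_nat_add_iff 1).2 h2
    refine h3.congr fun n => ?_
    push_cast
    rfl
  apply Summable.of_nat_of_neg
  · refine h1.congr fun n => ?_
    rw [Int.cast_natCast, abs_of_nonneg (Nat.cast_nonneg n)]
  · refine h1.congr fun n => ?_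
    rw [Int.cast_neg, Int.cast_natCast, abs_neg, abs_of_nonneg (Nat.cast_nonneg n)]

lemma term_int {A : ℝ} (hA : 1 ≤ A) {i : ℕ} (hi : 1 ≤ i) {V : ℝ} (hV : V ≠ 0) :
    Integrable (fun y : ℝ => li A y ^ i * li V y) := by
  have := li_prod_integrable (A := A) (V := V) (by linarith) hV (i := i) (b := 1) (by omega)
  simpa using this

lemma int_pos {A : ℝ} (hA : 1 ≤ A) {i : ℕ} (hi : 1 ≤ i) {V : ℝ} (hV : 0 < V) :
    ∫ y : ℝ, li A y ^ i * li V y = 0 := by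
  obtain ⟨i', rfl⟩ : ∃ i', i = i' + 1 := ⟨i - 1, by omega⟩
  have := J_pos (A := A) (V := V) (by linarith) hV i' i' 0 (by omega)
  simpa using this

lemma int_neg {A : ℝ} (hA : 1 ≤ A) {i : ℕ} (hi : 1 ≤ i) {V : ℝ} (hV : V < 0) :
    ∫ y : ℝ, li A y ^ i * li V y = -(2 * Real.pi) / ((A : ℂ) - V) ^ i := by
  obtain ⟨i', rfl⟩ : ∃ i', i = i' + 1 := ⟨i - 1, by omega⟩
  have := J_neg (A := A) (V := V) (by linarith) hV i' i' 0 (by omega)
  simp only [zero_add, pow_one, add_zero, Nat.choose_self, Nat.cast_one, mul_one, mul_neg] at this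
  rw [this]

/-- the terms of the series -/
lemma f_int {b : ℝ} (hb0 : 0 < b) (hb1 : b < 1) {A : ℝ} (hA : 1 ≤ A) {i : ℕ} (hi : 1 ≤ i) (j : ℤ) :
    Integrable (fun y : ℝ =>
      li A y ^ i * (li ((j : ℝ) - 1 / 2 - b / 2) y - li ((j : ℝ) - 1 / 2 + b / 2) y)) := by
  obtain ⟨hV, hV1⟩ := V_ne hb0 hb1 j
  have h := (term_int hA hi hV).sub (term_int hA hi hV1)
  refine h.congr (Filter.Eventually.of_forall fun y => ?_)
  simp only [Pi.sub_apply]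
  ring

lemma f_eq {b : ℝ} (hb0 : 0 < b) (hb1 : b < 1) {A : ℝ} (hA : 1 ≤ A) {i : ℕ} (hi : 1 ≤ i) (j : ℤ) :
    ∫ y : ℝ, li A y ^ i * (li ((j : ℝ) - 1 / 2 - b / 2) y - li ((j : ℝ) - 1 / 2 + b / 2) y) =
      (∫ y : ℝ, li A y ^ i * li ((j : ℝ) - 1 / 2 - b / 2) y) -
        ∫ y : ℝ, li A y ^ i * li ((j : ℝ) - 1 / 2 + b / 2) y := by
  obtain ⟨hV, hV1⟩ := V_ne hb0 hb1 j
  rw [← integral_sub (term_int hA hi hV) (term_int hA hi hV1)]
  apply integral_congr_ae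
  refine Filter.Eventually.of_forall fun y => ?_
  simp only
  ring

lemma f_norm {b : ℝ} (hb0 : 0 < b) (hb1 : b < 1) {A : ℝ} (hA : 1 ≤ A) {i : ℕ} (hi : 1 ≤ i) :
    Summable (fun j : ℤ => ∫ y : ℝ,
      ‖li A y ^ i * (li ((j : ℝ) - 1 / 2 - b / 2) y - li ((j : ℝ) - 1 / 2 + b / 2) y)‖) := by
  have hI : Integrable (fun y : ℝ => (1 + ‖y‖ ^ 2) ^ (-(3 / 2) / 2 : ℝ)) := by
    apply integrable_rpow_neg_one_add_norm_sq
    simp only [Module.finrank_self, Nat.cast_one]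
    norm_num
  have hs := (summable32.mul_left ((((1 - b) / 4) ^ 2)⁻¹)).mul_right
    (∫ y : ℝ, (1 + ‖y‖ ^ 2) ^ (-(3 / 2) / 2 : ℝ))
  refine Summable.of_nonneg_of_le (fun j => integral_nonneg fun y => norm_nonneg _)
    (fun j => ?_) hs
  rw [← integral_const_mul]
  apply integral_mono (f_int hb0 hb1 hA hi j).norm (hI.const_mul _)
  intro y
  exact dom hb0 hb1 hA hi j y

lemma hasSum_Z {b : ℝ} (hb0 : 0 < b) (hb1 : b < 1) {A : ℝ} (hA : 1 ≤ A) {i : ℕ} (hi : 1 ≤ i) :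
    HasSum (fun j : ℤ => ∫ y : ℝ,
      li A y ^ i * (li ((j : ℝ) - 1 / 2 - b / 2) y - li ((j : ℝ) - 1 / 2 + b / 2) y))
      ((2 * Real.pi : ℂ) * ∫ y : ℝ, li A y ^ i * ((kerb b y : ℝ) : ℂ)) := by
  have h := hasSum_integral_of_summable_integral_norm (fun j => f_int hb0 hb1 hA hi j)
    (f_norm hb0 hb1 hA hi)
  have e : (∫ y : ℝ, ∑' j : ℤ,
      li A y ^ i * (li ((j : ℝ) - 1 / 2 - b / 2) y - li ((j : ℝ) - 1 / 2 + b / 2) y)) =
      (2 * Real.pi : ℂ) * ∫ y : ℝ, li A y ^ i * ((kerb b y : ℝ) : ℂ) := by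
    rw [← integral_const_mul]
    apply integral_congr_ae
    refine Filter.Eventually.of_forall fun y => ?_
    simp only
    rw [((B0_kernel hb0 hb1 y).mul_left (li A y ^ i)).tsum_eq]
    push_cast
    ring
  rw [e] at h
  exact h

/-- **the tail of the balanced series as an integral** -/
theorem tail_hasSum {b : ℝ} (hb0 : 0 < b) (hb1 : b < 1) {A : ℝ} (hA : 1 ≤ A) {i : ℕ} (hi : 1 ≤ i) :
    HasSum (fun l : ℕ => (1 / ((A : ℂ) + l + 1 / 2 + b / 2) ^ i - 1 / ((A : ℂ) + l + 1 / 2 - b / 2) ^ i))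
      (-∫ y : ℝ, li A y ^ i * ((kerb b y : ℝ) : ℂ)) := by
  have h := hasSum_Z hb0 hb1 hA hi
  have hinj : Function.Injective (fun l : ℕ => (-(l : ℤ))) := by
    intro a b hab
    simp only at hab
    omega
  rw [← hinj.hasSum_iff] at h
  · have hpi : (2 * (Real.pi : ℂ)) ≠ 0 := by
      have := Complex.ofReal_ne_zero.2 Real.pi_ne_zero
      exact mul_ne_zero two_ne_zero this
    have e : ((fun j : ℤ => ∫ y : ℝ,
        li A y ^ i * (li ((j : ℝ) - 1 / 2 - b / 2) y - li ((j : ℝ) - 1 / 2 + b / 2) y)) ∘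
        fun l : ℕ => (-(l : ℤ))) = fun l : ℕ => (-(2 * (Real.pi : ℂ))) *
      (1 / ((A : ℂ) + l + 1 / 2 + b / 2) ^ i - 1 / ((A : ℂ) + l + 1 / 2 - b / 2) ^ i) := by
      funext l
      have hl : (0 : ℝ) ≤ l := Nat.cast_nonneg l
      simp only [Function.comp]
      rw [f_eq hb0 hb1 hA hi]
      rw [int_neg hA hi (by push_cast; linarith), int_neg hA hi (by push_cast; linarith)]
      have e1 : (A : ℂ) - (((-(l : ℤ) : ℤ) : ℝ) - 1 / 2 - b / 2 : ℝ) =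
          (A : ℂ) + l + 1 / 2 + b / 2 := by
        push_cast
        ring
      have e2 : (A : ℂ) - (((-(l : ℤ) : ℤ) : ℝ) - 1 / 2 + b / 2 : ℝ) =
          (A : ℂ) + l + 1 / 2 - b / 2 := by
        push_cast
        ring
      rw [e1, e2]
      ring
    rw [e] at h
    have h2 := h.mul_left (-(2 * (Real.pi : ℂ)))⁻¹
    have e3 : (-(2 * (Real.pi : ℂ)))⁻¹ * ((2 * Real.pi : ℂ) * ∫ y : ℝ, li A y ^ i * ((kerb b y : ℝ) : ℂ)) =
        -∫ y : ℝ, li A y ^ i * ((kerb b y : ℝ) : ℂ) := by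
      rw [← mul_assoc, inv_neg, neg_mul, inv_mul_cancel₀ hpi]
      ring
    rw [e3] at h2
    refine h2.congr_fun fun l => ?_
    rw [← mul_assoc, inv_mul_cancel₀ (neg_ne_zero.2 hpi), one_mul]
  · intro j hj
    have hj0 : 1 ≤ j := by
      by_contra hneg
      apply hj
      refine ⟨(-j).toNat, ?_⟩
      simp only
      omega
    have hj' : (1 : ℝ) ≤ j := by exact_mod_cast hj0
    rw [f_eq hb0 hb1 hA hi, int_pos hA hi (by linarith), int_pos hA hi (by linarith), sub_zero]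

end

end Pool.Agent.H387R3.QG
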