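import Pool.Agent.H397R2.QG.Defs
import Pool.Agent.H387R3.QG.B0s

/-!
# The linear form: zone sum plus line integral
-/

open MeasureTheory Filter Topology Complex Polynomial Pool.Agent.H337R2

namespace Pool.Agent.H397R2.QG

noncomputable section

namespace BLx

open Pool.Agent.H387R3.QG

lemma ker_eq (σ : ℕ) (y : ℝ) : ker σ y = kerb ((σ : ℝ) / 4) y := by
  unfold ker kerb
  rw [show Real.pi * (σ : ℝ) / 4 = Real.pi * ((σ : ℝ) / 4) by ring]

lemma sig {σ : ℕ} (hσ : σ = 1 ∨ σ = 3) : 0 < (σ : ℝ) / 4 ∧ (σ : ℝ) / 4 < 1 := by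
  rcases hσ with rfl | rfl <;> constructor <;> norm_num

/-- adding terms to `fs` -/
lemma fs_add (σ i : ℕ) {k : ℕ} (hk : 1 ≤ k) (T : ℕ) :
    fs σ i (k + T) = fs σ i k + ∑ l ∈ Finset.range T,
      (1 / ((l : ℚ) + (σ : ℚ) / 4 + k) ^ i - 1 / ((l : ℚ) + k) ^ i) := by
  induction T with
  | zero => simp
  | succ T ih =>
    rw [Finset.sum_range_succ, ← add_assoc (fs σ i k), ← ih, ← add_assoc k T 1]
    unfold fs
    rw [Finset.sum_range_succ, Finset.sum_Ico_succ_top (by omega : 1 ≤ k + T)]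
    have e1 : (((k + T : ℕ) : ℚ) + (σ : ℚ) / 4) = ((T : ℚ) + (σ : ℚ) / 4 + k) := by push_cast; ring
    have e2 : (((k + T : ℕ) : ℚ)) = ((T : ℚ) + k) := by push_cast; ring
    rw [e1, e2]
    ring

/-- the limit of `fs` and the integrals -/
lemma lam {σ : ℕ} (hσ : σ = 1 ∨ σ = 3) {i : ℕ} (hi : 1 ≤ i) : ∃ Λ : ℂ,
    Tendsto (fun m : ℕ => ((fs σ i m : ℚ) : ℂ)) atTop (𝓝 Λ) ∧
    ∀ M : ℕ, 2 ≤ M → Λ - ((fs σ i M : ℚ) : ℂ) =
      -∫ y : ℝ, li ((M : ℝ) - 1 / 2 + (σ : ℝ) / 8) y ^ i * ((ker σ y : ℝ) : ℂ) := by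
  obtain ⟨hb0, hb1⟩ := sig hσ
  have key : ∀ M : ℕ, 2 ≤ M → Tendsto (fun m : ℕ => ((fs σ i m : ℚ) : ℂ)) atTop
      (𝓝 (((fs σ i M : ℚ) : ℂ) - ∫ y : ℝ, li ((M : ℝ) - 1 / 2 + (σ : ℝ) / 8) y ^ i * ((ker σ y : ℝ) : ℂ))) := by
    intro M hM
    have hM' : (2 : ℝ) ≤ M := by exact_mod_cast hM
    have hA : (1 : ℝ) ≤ (M : ℝ) - 1 / 2 + (σ : ℝ) / 8 := by
      have : (0 : ℝ) ≤ (σ : ℝ) := by positivity
      linarith
    have h1 := (tail_hasSum hb0 hb1 hA hi).tendsto_sum_nat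
    have h2 := h1.const_add ((fs σ i M : ℚ) : ℂ)
    have h3 : ∀ L : ℕ, ((fs σ i M : ℚ) : ℂ) + ∑ l ∈ Finset.range L,
        (1 / ((((M : ℝ) - 1 / 2 + (σ : ℝ) / 8 : ℝ) : ℂ) + l + 1 / 2 + (((σ : ℝ) / 4 : ℝ) : ℂ) / 2) ^ i -
          1 / ((((M : ℝ) - 1 / 2 + (σ : ℝ) / 8 : ℝ) : ℂ) + l + 1 / 2 - (((σ : ℝ) / 4 : ℝ) : ℂ) / 2) ^ i) =
        ((fs σ i (L + M) : ℚ) : ℂ) := by
      intro L
      rw [add_comm L M, fs_add σ i (by omega : 1 ≤ M) L]
      push_cast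
      congr 1
      apply Finset.sum_congr rfl
      intro l _
      congr 2
      · congr 1; ring
      · congr 1; ring
    have h4 : Tendsto (fun L : ℕ => ((fs σ i (L + M) : ℚ) : ℂ)) atTop
        (𝓝 (((fs σ i M : ℚ) : ℂ) - ∫ y : ℝ, li ((M : ℝ) - 1 / 2 + (σ : ℝ) / 8) y ^ i * ((ker σ y : ℝ) : ℂ))) := by
      have h5 := h2.congr h3
      simp only [ker_eq]
      rw [sub_eq_add_neg]
      exact h5
    exact (tendsto_add_atTop_iff_nat M).1 h4
  refine ⟨_, key 2 le_rfl, fun M hM => ?_⟩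
  have h := tendsto_nhds_unique (key 2 le_rfl) (key M hM)
  rw [h]
  ring

lemma theta_lim {σ : ℕ} (hσ : σ = 1 ∨ σ = 3) :
    Tendsto (fun m : ℕ => ((fs σ 2 m : ℚ) : ℂ)) atTop (𝓝 ((theta σ : ℝ) : ℂ)) := by
  obtain ⟨hb0, hb1⟩ := sig hσ
  have s1 : Summable (fun j : ℕ => 1 / ((j : ℝ) + 1) ^ 2) := summable_zr (le_refl 2)
  have s2 : Summable (fun j : ℕ => 1 / ((j : ℝ) + (σ : ℝ) / 4) ^ 2) := by
    rw [← summable_nat_add_iff 1]
    refine Summable.of_nonneg_of_le (fun j => by positivity) (fun j => ?_) s1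
    apply one_div_le_one_div_of_le (by positivity)
    apply pow_le_pow_left₀ (by positivity)
    push_cast
    linarith
  have s3 := (s2.sub s1).hasSum.tendsto_sum_nat
  have s4 : Tendsto (fun n : ℕ => 1 / ((n : ℝ) + (σ : ℝ) / 4) ^ 2) atTop (𝓝 0) := s2.tendsto_atTop_zero
  have s5 := s3.add s4
  rw [add_zero] at s5
  have s6 : Tendsto (fun n : ℕ => ((fs σ 2 (n + 1) : ℚ) : ℝ)) atTop (𝓝 (theta σ)) := by
    refine s5.congr fun n => ?_
    unfold fs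
    rw [Finset.sum_sub_distrib]
    rw [Finset.sum_range_succ, Finset.sum_Ico_eq_sum_range, Nat.add_sub_cancel]
    push_cast
    have e : ∑ x ∈ Finset.range n, 1 / ((x : ℝ) + 1) ^ 2 = ∑ x ∈ Finset.range n, 1 / (1 + (x : ℝ)) ^ 2 := by
      apply Finset.sum_congr rfl
      intro x _
      rw [add_comm]
    rw [e]
    ring
  have s7 := (tendsto_add_atTop_iff_nat (f := fun n : ℕ => ((fs σ 2 n : ℚ) : ℝ)) 1).1 s6
  have s8 := (Complex.continuous_ofReal.tendsto _).comp s7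
  refine s8.congr fun n => ?_
  simp

/-- partial fractions at a complex point -/
theorem pf2 (s : Finset ℕ) (P : ℚ[X]) (hdeg : P.degree < (QQ s m2).degree) (z : ℂ)
    (hz : ∀ k ∈ s, z + (k : ℂ) ≠ 0) :
    aeval z P / aeval z (QQ s m2) =
      ∑ k ∈ s, ∑ i ∈ Finset.Icc 1 2, ((pa s m2 P k i : ℚ) : ℂ) * ((z + k)⁻¹) ^ i := by
  have hQ : aeval z (QQ s m2) ≠ 0 := by
    unfold QQ
    rw [map_prod, Finset.prod_ne_zero_iff]
    intro m hm
    rw [map_pow, map_add, aeval_X, aeval_C]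
    apply pow_ne_zero
    have := hz m hm
    simpa using this
  rw [div_eq_iff hQ]
  conv_lhs => rw [pf_identity s m2 P hdeg]
  rw [map_sum, Finset.sum_mul]
  apply Finset.sum_congr rfl
  intro k hk
  rw [map_sum, Finset.sum_mul]
  refine Finset.sum_nbij' (fun j => 2 - j) (fun i => 2 - i) ?_ ?_ ?_ ?_ ?_
  · intro j hj
    have : j < 2 := Finset.mem_range.1 hj
    exact Finset.mem_Icc.2 ⟨by omega, by omega⟩
  · intro i hi
    have := Finset.mem_Icc.1 hi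
    exact Finset.mem_range.2 (show 2 - i < 2 by omega)
  · intro j hj
    have : j < 2 := Finset.mem_range.1 hj
    show 2 - (2 - j) = j
    omega
  · intro i hi
    have := Finset.mem_Icc.1 hi
    show 2 - (2 - i) = i
    omega
  · intro j hj
    have hj5 : j < 2 := Finset.mem_range.1 hj
    rw [QQ_erase s m2 hk, map_mul, map_mul, map_mul, map_pow, map_pow, map_add, aeval_X, aeval_C,
      aeval_C]
    have e1 : (algebraMap ℚ ℂ) (k : ℚ) = (k : ℂ) := by simp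
    have e2 : (algebraMap ℚ ℂ) (pfc s m2 P k j) = ((pfc s m2 P k j : ℚ) : ℂ) := rfl
    have e4 : pa s m2 P k (2 - j) = pfc s m2 P k j := by
      unfold pa
      have h5 : 2 - j ≤ m2 k := Nat.sub_le 2 j
      rw [if_pos h5]
      congr 1
      show 2 - (2 - j) = j
      omega
    rw [e1, e2, e4]
    have hzk := hz k hk
    have e3 : (z + (k : ℂ)) ^ m2 k = (z + k) ^ (2 - j) * (z + k) ^ j := by
      rw [← pow_add, Nat.sub_add_cancel hj5.le]
      rfl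
    rw [e3, inv_pow]
    field_simp

lemma PPn_natDegree (n : ℕ) : (PPn n).natDegree ≤ 2 * n := by
  unfold PPn
  refine (Polynomial.natDegree_prod_le _ _).trans ?_
  refine (Finset.sum_le_card_nsmul _ _ 1 fun m _ => ?_).trans ?_
  · rw [Polynomial.natDegree_X_sub_C]
  · simp

lemma deg2 {n : ℕ} (Q : ℚ[X]) (hQ : Q.natDegree + 2 ≤ 14 * n) :
    (PPn n * Q).natDegree + 2 ≤ (QQ (sQ n) m2).natDegree := by
  have h1 : (QQ (sQ n) m2).natDegree = 16 * n := by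
    rw [QQ_natDegree]
    unfold m2 sQ
    rw [Finset.sum_const, Nat.card_Icc, smul_eq_mul]
    omega
  have h3 : (PPn n * Q).natDegree ≤ (PPn n).natDegree + Q.natDegree := Polynomial.natDegree_mul_le
  have h4 := PPn_natDegree n
  omega

lemma deg1 {n : ℕ} (Q : ℚ[X]) (hQ : Q.natDegree + 2 ≤ 14 * n) :
    (PPn n * Q).degree < (QQ (sQ n) m2).degree :=
  Polynomial.degree_lt_degree (by have := deg2 Q hQ; omega)

/-- the value at the quarter nodes -/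
lemma Rv_quarter (n σ l : ℕ) (Q : ℚ[X]) :
    Rv (sQ n) m2 (PPn n * Q) (xh σ l) = wh n σ l * Q.eval (xh σ l) := by
  rw [Rv_val, eval_mul]
  have h2 : ∏ m ∈ sQ n, ((xh σ l + m)⁻¹) ^ m2 m =
      ((∏ k ∈ Finset.Icc 1 (8 * n), (xh σ l + k)) ^ 2)⁻¹ := by
    unfold sQ m2
    rw [Finset.prod_pow, Finset.prod_inv_distrib, inv_pow]
  rw [h2]
  unfold wh
  ring

/-- the zeros -/
lemma Rv_zero {n l : ℕ} (hl : l < 2 * n) (Q : ℚ[X]) :
    Rv (sQ n) m2 (PPn n * Q) (l : ℚ) = 0 := by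
  rw [Rv_val, eval_mul]
  have h : (PPn n).eval (l : ℚ) = 0 := by
    unfold PPn
    rw [eval_prod]
    apply Finset.prod_eq_zero (Finset.mem_range.2 hl)
    simp
  rw [h]
  ring

/-- the linear form minus the zone -/
lemma real_form {n σ : ℕ} (u : ℚ) (Q : ℚ[X]) (hQ : Q.natDegree + 2 ≤ 14 * n) :
    NL n σ u Q - ∑ l ∈ Finset.range (2 * n), wh n σ l * Q.eval (xh σ l) =
      ∑ k ∈ sQ n, (pa (sQ n) m2 (PPn n * Q) k 2 * (u - fs σ 2 (k + 2 * n)) -
        pa (sQ n) m2 (PPn n * Q) k 1 * fs σ 1 (k + 2 * n)) := by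
  have hd := deg1 Q hQ
  have h1 : ∀ l ∈ Finset.range (2 * n), wh n σ l * Q.eval (xh σ l) =
      ∑ k ∈ sQ n, (pa (sQ n) m2 (PPn n * Q) k 1 * (1 / ((l : ℚ) + (σ : ℚ) / 4 + k) ^ 1 - 1 / ((l : ℚ) + k) ^ 1) +
        pa (sQ n) m2 (PPn n * Q) k 2 * (1 / ((l : ℚ) + (σ : ℚ) / 4 + k) ^ 2 - 1 / ((l : ℚ) + k) ^ 2)) := by
    intro l hl
    have a1 := Rv_quarter n σ l Q
    have a2 := Rv_zero (Finset.mem_range.1 hl) Q
    have hk1 : ∀ m ∈ sQ n, (1 : ℚ) ≤ m := by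
      intro m hm
      have := (Finset.mem_Icc.1 hm).1
      exact_mod_cast this
    rw [Rv_eq (sQ n) m2 _ hd _ (fun m hm => by
      have := hk1 m hm
      unfold xh
      positivity) 2 (fun _ _ => le_rfl)] at a1
    rw [Rv_eq (sQ n) m2 _ hd _ (fun m hm => by
      have := hk1 m hm
      positivity) 2 (fun _ _ => le_rfl)] at a2
    rw [← a1]
    have e : ∀ (c : ℚ), ∑ k ∈ sQ n, ∑ i ∈ Finset.Icc 1 2, pa (sQ n) m2 (PPn n * Q) k i / (c + k) ^ i =
        ∑ k ∈ sQ n, (pa (sQ n) m2 (PPn n * Q) k 1 / (c + k) ^ 1 + pa (sQ n) m2 (PPn n * Q) k 2 / (c + k) ^ 2) := by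
      intro c
      apply Finset.sum_congr rfl
      intro k _
      rw [show Finset.Icc 1 2 = {1, 2} by rfl, Finset.sum_pair (by norm_num)]
    rw [e] at a2
    rw [e, ← sub_zero (∑ k ∈ sQ n, _), ← a2, ← Finset.sum_sub_distrib]
    apply Finset.sum_congr rfl
    intro k _
    unfold xh
    ring
  rw [Finset.sum_congr rfl h1, Finset.sum_comm, NL_apply]
  unfold xf
  rw [← Finset.sum_sub_distrib]
  apply Finset.sum_congr rfl
  intro k hk
  have hk1 : 1 ≤ k := (Finset.mem_Icc.1 hk).1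
  rw [fs_add σ 2 hk1, fs_add σ 1 hk1, Finset.sum_add_distrib, ← Finset.mul_sum, ← Finset.mul_sum]
  ring

end BLx

open BLx Pool.Agent.H387R3.QG

/-- zone plus line -/
theorem B_line (n σ : ℕ) (hn : 1 ≤ n) (hσ : σ = 1 ∨ σ = 3) (u : ℚ) (hu : theta σ = (u : ℝ)) (Q : ℚ[X])
    (hQ : Q.natDegree + 2 ≤ 14 * n) :
    (((NL n σ u Q - ∑ l ∈ Finset.range (2 * n), wh n σ l * Q.eval (xh σ l) : ℚ) : ℝ) : ℂ) =
      - ∫ y : ℝ, Rn n σ y * aeval (zt n σ y) Q * ((ker σ y : ℝ) : ℂ) := by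
  obtain ⟨hb0, hb1⟩ := sig hσ
  have hd := deg1 Q hQ
  have hres := residue_sum (sQ n) m2 (PPn n * Q) (deg2 Q hQ)
  obtain ⟨Λ1, -, hΛ1⟩ := lam hσ (i := 1) le_rfl
  obtain ⟨Λ2, hL2, hΛ2⟩ := lam hσ (i := 2) (by norm_num)
  have hΛ : Λ2 = ((u : ℚ) : ℂ) := by
    have := tendsto_nhds_unique hL2 (theta_lim hσ)
    rw [this, hu]
    simp
  set P := PPn n * Q with hP
  have hA : ∀ k ∈ sQ n, ((k + 2 * n : ℕ) : ℝ) - 1 / 2 + (σ : ℝ) / 8 = cl n σ + k := by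
    intro k _
    unfold cl
    push_cast
    ring
  have hA1 : ∀ k ∈ sQ n, (1 : ℝ) ≤ cl n σ + k := by
    intro k hk
    rw [← hA k hk]
    have h1 : (1 : ℝ) ≤ k := by exact_mod_cast (Finset.mem_Icc.1 hk).1
    have h2 : (1 : ℝ) ≤ n := by exact_mod_cast hn
    have h3 : (0 : ℝ) ≤ (σ : ℝ) := by positivity
    push_cast
    linarith
  have hint : ∀ y : ℝ, Rn n σ y * aeval (zt n σ y) Q * ((ker σ y : ℝ) : ℂ) =
      ∑ k ∈ sQ n, ∑ i ∈ Finset.Icc 1 2, ((pa (sQ n) m2 P k i : ℚ) : ℂ) *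
        (li (cl n σ + k) y ^ i * ((ker σ y : ℝ) : ℂ)) := by
    intro y
    have e : ∀ k : ℕ, zt n σ y + (k : ℂ) = ((cl n σ + k : ℝ) : ℂ) + y * I := by
      intro k
      unfold zt; push_cast; ring
    have hz : ∀ k ∈ sQ n, zt n σ y + (k : ℂ) ≠ 0 := by
      intro k hk
      rw [e]
      exact lf_ne (by have := hA1 k hk; linarith) y
    have h1 := pf2 (sQ n) P hd (zt n σ y) hz
    have h3 : Rn n σ y * aeval (zt n σ y) Q = aeval (zt n σ y) P / aeval (zt n σ y) (QQ (sQ n) m2) := by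
      rw [hP, map_mul]
      unfold Rn
      ring
    rw [h3, h1, Finset.sum_mul]
    apply Finset.sum_congr rfl
    intro k _
    rw [Finset.sum_mul]
    apply Finset.sum_congr rfl
    intro i _
    rw [e k]
    unfold li
    ring
  have hI : (∫ y : ℝ, Rn n σ y * aeval (zt n σ y) Q * ((ker σ y : ℝ) : ℂ)) =
      ∫ y : ℝ, ∑ k ∈ sQ n, ∑ i ∈ Finset.Icc 1 2, ((pa (sQ n) m2 P k i : ℚ) : ℂ) *
        (li (cl n σ + k) y ^ i * ((ker σ y : ℝ) : ℂ)) :=
    integral_congr_ae (Filter.Eventually.of_forall hint)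
  have hInt : ∀ k ∈ sQ n, ∀ i ∈ Finset.Icc 1 2,
      Integrable (fun y : ℝ => li (cl n σ + k) y ^ i * ((ker σ y : ℝ) : ℂ)) := by
    intro k hk i hi
    have := ker_integrable hb0 hb1 (hA1 k hk) (Finset.mem_Icc.1 hi).1
    simpa only [ker_eq] using this
  rw [hI, integral_finsetSum]
  · rw [real_form u Q hQ, ← Finset.sum_neg_distrib]
    have e0 : ((((∑ k ∈ sQ n, (pa (sQ n) m2 P k 2 * (u - fs σ 2 (k + 2 * n)) -
        pa (sQ n) m2 P k 1 * fs σ 1 (k + 2 * n)) : ℚ) : ℝ)) : ℂ) =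
        ∑ k ∈ sQ n, (((pa (sQ n) m2 P k 2 : ℚ) : ℂ) * (Λ2 - ((fs σ 2 (k + 2 * n) : ℚ) : ℂ)) +
          ((pa (sQ n) m2 P k 1 : ℚ) : ℂ) * (Λ1 - ((fs σ 1 (k + 2 * n) : ℚ) : ℂ))) := by
      have h0 : ∑ k ∈ sQ n, ((pa (sQ n) m2 P k 1 : ℚ) : ℂ) * Λ1 = 0 := by
        rw [← Finset.sum_mul, ← Rat.cast_sum, hres]
        simp
      rw [← sub_zero (∑ k ∈ sQ n, (((pa (sQ n) m2 P k 2 : ℚ) : ℂ) * (Λ2 - _) + _)), ← h0,
        ← Finset.sum_sub_distrib, hΛ]
      push_cast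
      apply Finset.sum_congr rfl
      intro k _
      ring
    rw [e0]
    apply Finset.sum_congr rfl
    intro k hk
    have hk1 : 1 ≤ k := (Finset.mem_Icc.1 hk).1
    rw [integral_finsetSum _ (fun i hi => (hInt k hk i hi).const_mul _)]
    rw [show Finset.Icc 1 2 = {1, 2} by rfl, Finset.sum_pair (by norm_num), integral_const_mul, integral_const_mul]
    have a1 := hΛ1 (k + 2 * n) (by omega)
    have a2 := hΛ2 (k + 2 * n) (by omega)
    rw [hA k hk] at a1 a2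
    rw [a1, a2]
    ring
  · intro k hk
    apply integrable_finsetSum
    intro i hi
    exact (hInt k hk i hi).const_mul _

/-- the bound used in the archimedean part -/
theorem B2_NL_le (n σ : ℕ) (hn : 1 ≤ n) (hσ : σ = 1 ∨ σ = 3) (u : ℚ) (hu : theta σ = (u : ℝ)) (Q : ℚ[X])
    (hQ : Q.natDegree + 2 ≤ 14 * n) (B : ℝ)
    (hB : ∀ y : ℝ, ‖Rn n σ y‖ * ‖aeval (zt n σ y) Q‖ * Real.exp (-(2 * Real.pi * |y|)) ≤ B * (1 + y ^ 2)⁻¹) :
    |((NL n σ u Q - ∑ l ∈ Finset.range (2 * n), wh n σ l * Q.eval (xh σ l) : ℚ) : ℝ)| ≤ 16 * B := by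
  have h1 := B_line n σ hn hσ u hu Q hQ
  have hB0 : 0 ≤ B := by
    have h := hB 0
    simp only [abs_zero, mul_zero, neg_zero, Real.exp_zero, mul_one, ne_eq, OfNat.ofNat_ne_zero,
      not_false_eq_true, zero_pow, add_zero, inv_one] at h
    exact le_trans (by positivity) h
  have hs2 : Real.sqrt 2 ≤ 283 / 200 := by
    rw [Real.sqrt_le_left (by norm_num)]
    norm_num
  have hs0 : 0 ≤ Real.sqrt 2 := Real.sqrt_nonneg 2
  have hsc : Real.sin (Real.pi * σ / 4) = Real.sqrt 2 / 2 ∧ -(Real.sqrt 2 / 2) ≤ Real.cos (Real.pi * σ / 4) := by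
    rcases hσ with rfl | rfl
    · rw [show Real.pi * ((1 : ℕ) : ℝ) / 4 = Real.pi / 4 by push_cast; ring, Real.sin_pi_div_four,
        Real.cos_pi_div_four]
      constructor
      · rfl
      · linarith
    · rw [show Real.pi * ((3 : ℕ) : ℝ) / 4 = Real.pi - Real.pi / 4 by push_cast; ring, Real.sin_pi_sub,
        Real.cos_pi_sub, Real.sin_pi_div_four, Real.cos_pi_div_four]
      exact ⟨rfl, le_rfl⟩
  have hker : ∀ y : ℝ, ‖((ker σ y : ℝ) : ℂ)‖ ≤ 5 * Real.exp (-(2 * Real.pi * |y|)) := by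
    intro y
    rw [Complex.norm_real, Real.norm_eq_abs]
    unfold ker
    rw [hsc.1]
    have hch : Real.exp (2 * Real.pi * |y|) / 2 ≤ Real.cosh (2 * Real.pi * y) := by
      have h3 : Real.cosh (2 * Real.pi * y) = Real.cosh (2 * Real.pi * |y|) := by
        rcases abs_cases y with ⟨h, _⟩ | ⟨h, _⟩
        · rw [h]
        · rw [h, mul_neg, Real.cosh_neg]
      rw [h3, Real.cosh_eq]
      have := Real.exp_pos (-(2 * Real.pi * |y|))
      linarith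
    have hc1 := Real.one_le_cosh (2 * Real.pi * y)
    set c := Real.cos (Real.pi * σ / 4) with hc
    set ch := Real.cosh (2 * Real.pi * y) with hch'
    set E := Real.exp (2 * Real.pi * |y|) with hE
    have hE0 : 0 < E := Real.exp_pos _
    have hEi : Real.exp (-(2 * Real.pi * |y|)) = E⁻¹ := by rw [Real.exp_neg]
    rw [hEi]
    have hden : ch * (117 / 400) ≤ c + ch := by
      have := hsc.2
      nlinarith
    have hden2 : E * (117 / 800) ≤ c + ch := by linarith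
    rw [abs_div, abs_of_nonneg (by positivity), abs_of_pos (by linarith [hden2] : 0 < c + ch),
      div_le_iff₀ (by linarith)]
    have h6 : 5 * E⁻¹ * (E * (117 / 800)) ≤ 5 * E⁻¹ * (c + ch) := mul_le_mul_of_nonneg_left hden2 (by positivity)
    have h7 : 5 * E⁻¹ * (E * (117 / 800)) = 117 / 160 := by
      field_simp
      norm_num
    linarith [hs2]
  have h2 : ‖∫ y : ℝ, Rn n σ y * aeval (zt n σ y) Q * ((ker σ y : ℝ) : ℂ)‖ ≤ ∫ y : ℝ, (5 * B) * (1 + y ^ 2)⁻¹ := by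
    apply norm_integral_le_of_norm_le (integrable_inv_one_add_sq.const_mul _)
    refine Filter.Eventually.of_forall (fun y => ?_)
    rw [norm_mul, norm_mul]
    calc _ ≤ ‖Rn n σ y‖ * ‖aeval (zt n σ y) Q‖ * (5 * Real.exp (-(2 * Real.pi * |y|))) :=
          mul_le_mul_of_nonneg_left (hker y) (by positivity)
      _ = 5 * (‖Rn n σ y‖ * ‖aeval (zt n σ y) Q‖ * Real.exp (-(2 * Real.pi * |y|))) := by ring
      _ ≤ 5 * (B * (1 + y ^ 2)⁻¹) := mul_le_mul_of_nonneg_left (hB y) (by norm_num)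
      _ = _ := by ring
  rw [integral_const_mul, integral_univ_inv_one_add_sq] at h2
  have h3 : ‖(((NL n σ u Q - ∑ l ∈ Finset.range (2 * n), wh n σ l * Q.eval (xh σ l) : ℚ) : ℝ) : ℂ)‖ ≤
      5 * B * Real.pi := by
    rw [h1, norm_neg]
    exact h2
  rw [Complex.norm_real, Real.norm_eq_abs] at h3
  refine h3.trans ?_
  have hpi : Real.pi ≤ 3.15 := Real.pi_lt_d2.le
  nlinarith

end

end Pool.Agent.H397R2.QG
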