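import Pool.Agent.H397R2.QG.Defs
import Pool.Agent.H337R2.Crude2
import Pool.Agent.H337R2.LZ.C4
import Pool.Agent.H336R2.HD.A1
import Pool.Agent.H336R2.HD.A3

/-! Project QG: the small primes, `P_small` (helper387). -/

open Polynomial Pool.Agent.H337R2

namespace Pool.Agent.H397R2.QG

noncomputable section

set_option linter.unusedSectionVars false

/-! ### Legendre and the partial sums -/

lemma PSL_digits (p N B : ℕ) [hp : Fact p.Prime] (hN : N ≤ B) :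
    (p.digits N).sum ≤ (p - 1) * (Nat.log p B + 1) := by
  rcases Nat.eq_zero_or_pos N with h0 | h0
  · subst h0
    simp
  · have h1 : (p.digits N).sum ≤ (p.digits N).length • (p - 1) := by
      apply List.sum_le_card_nsmul
      intro x hx
      have := Nat.digits_lt_base hp.out.one_lt hx
      omega
    rw [Nat.length_digits p N hp.out.one_lt h0.ne', smul_eq_mul] at h1
    refine h1.trans ?_
    rw [mul_comm]
    apply Nat.mul_le_mul_left
    have := Nat.log_mono_right (b := p) hN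
    omega

lemma PSL_up (p N : ℕ) [hp : Fact p.Prime] : (p - 1) * padicValNat p N.factorial ≤ N := by
  rw [sub_one_mul_padicValNat_factorial]
  exact Nat.sub_le _ _

lemma PSL_low (p N B : ℕ) [hp : Fact p.Prime] (hN : N ≤ B) :
    N ≤ (p - 1) * padicValNat p N.factorial + (p - 1) * (Nat.log p B + 1) := by
  rw [sub_one_mul_padicValNat_factorial]
  have := PSL_digits p N B hN
  omega

lemma PSL_sum (p m B : ℕ) [hp : Fact p.Prime] (hm : m ≤ B) :
    m * m ≤ 2 * ((p - 1) * padicValNat p (∏ i ∈ Finset.range m, i.factorial)) +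
      2 * m * ((p - 1) * (Nat.log p B + 1)) + m := by
  induction m with
  | zero => simp
  | succ m ih =>
    have h1 := ih (by omega)
    have h2 := PSL_low p m B (by omega)
    rw [Finset.prod_range_succ, padicValNat.mul
      (Finset.prod_ne_zero_iff.2 fun i _ => Nat.factorial_ne_zero i) (Nat.factorial_ne_zero m)]
    generalize (p - 1) * (Nat.log p B + 1) = D at *
    rw [mul_add (p - 1)]
    generalize (p - 1) * padicValNat p (∏ i ∈ Finset.range m, i.factorial) = V at *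
    generalize (p - 1) * padicValNat p m.factorial = W at *
    nlinarith

theorem PS_leg (p n : ℕ) [hp : Fact p.Prime] (hn : 1 ≤ n) :
    14 * n * padicValNat p (8 * n).factorial ≤ 7 * n * padicValNat p (2 * n).factorial +
      4 * padicValNat p (∏ i ∈ Finset.range (7 * n), i.factorial) +
      49 * (n * (Nat.log p (32 * n + 3) + 1)) := by
  have hP : 1 ≤ p - 1 := by
    have := hp.out.two_le
    omega
  have h8 := PSL_up p (8 * n)
  have h2 := PSL_low p (2 * n) (32 * n + 3) (by omega)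
  have h7 := PSL_sum p (7 * n) (32 * n + 3) (by omega)
  have hE : 1 ≤ Nat.log p (32 * n + 3) + 1 := by omega
  generalize Nat.log p (32 * n + 3) + 1 = E at *
  generalize padicValNat p (∏ i ∈ Finset.range (7 * n), i.factorial) = V at *
  generalize padicValNat p (8 * n).factorial = v8 at *
  generalize padicValNat p (2 * n).factorial = v2 at *
  generalize p - 1 = P at *
  have hPE : 1 ≤ P * E := Nat.mul_pos hP hE
  refine le_of_mul_le_mul_left ?_ (show 0 < P from hP)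
  have a1 : 14 * n * (P * v8) ≤ 14 * n * (8 * n) := Nat.mul_le_mul_left _ h8
  have a2 : 7 * n * (2 * n) ≤ 7 * n * (P * v2 + P * E) := Nat.mul_le_mul_left _ h2
  have a3 : 14 * n * 1 ≤ 14 * n * (P * E) := Nat.mul_le_mul_left _ hPE
  nlinarith [a1, a2, a3, h7]

theorem PS_fs (p n σ i k : ℕ) [hp : Fact p.Prime] (hσ : σ = 1 ∨ σ = 3) (hi : i ≤ 2) (hk : k ≤ 8 * n) :
    padicNorm p (fs σ i k) ≤ ((32 * n + 3 : ℕ) : ℚ) ^ 2 := by
  have hM1 : (1 : ℚ) ≤ ((32 * n + 3 : ℕ) : ℚ) := by exact_mod_cast (by omega : 1 ≤ 32 * n + 3)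
  have hM : ∀ m : ℕ, 1 ≤ m → m ≤ 32 * n + 3 → (padicNorm p (m : ℚ))⁻¹ ≤ ((32 * n + 3 : ℕ) : ℚ) := by
    intro m h1 h2
    have h3 := norm_inv_le (p := p) (a := (m : ℤ)) (by omega) (M := ((32 * n + 3 : ℕ) : ℚ)) (by
      rw [Int.cast_natCast, abs_of_nonneg (by positivity)]
      exact_mod_cast h2)
    rwa [Int.cast_natCast] at h3
  generalize ((32 * n + 3 : ℕ) : ℚ) = M at *
  have hM2 : M ^ i ≤ M ^ 2 := pow_le_pow_right₀ hM1 hi
  have hM0 : (0 : ℚ) ≤ M ^ 2 := by positivity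
  have hpow : ∀ x : ℚ, (padicNorm p x)⁻¹ ≤ M → padicNorm p (1 / x ^ i) ≤ M ^ 2 := by
    intro x hx
    rw [padicNorm.div, padicNorm.one, padicNorm_pow', one_div, ← inv_pow]
    exact (pow_le_pow_left₀ (inv_nonneg.2 (padicNorm.nonneg _)) hx i).trans hM2
  unfold fs
  refine padicNorm.sub.trans (max_le ?_ ?_)
  · apply padicNorm.sum_le' _ hM0
    intro j hj
    rw [Finset.mem_range] at hj
    apply hpow
    have e : (j : ℚ) + (σ : ℚ) / 4 = ((4 * j + σ : ℕ) : ℚ) / ((4 : ℕ) : ℚ) := by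
      push_cast
      field_simp
    rw [e, padicNorm.div, inv_div]
    have h4 : padicNorm p ((4 : ℕ) : ℚ) ≤ 1 := padicNorm.of_nat 4
    have h5 := hM (4 * j + σ) (by omega) (by omega)
    rw [div_eq_mul_inv]
    calc padicNorm p ((4 : ℕ) : ℚ) * (padicNorm p ((4 * j + σ : ℕ) : ℚ))⁻¹
        ≤ 1 * (padicNorm p ((4 * j + σ : ℕ) : ℚ))⁻¹ :=
          mul_le_mul_of_nonneg_right h4 (inv_nonneg.2 (padicNorm.nonneg _))
      _ ≤ M := by rw [one_mul]; exact h5
  · apply padicNorm.sum_le' _ hM0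
    intro j hj
    rw [Finset.mem_Ico] at hj
    apply hpow
    exact hM j hj.1 (by omega)

section PSaux

variable {p : ℕ} [hp : Fact p.Prime]

lemma PS_fac_pos (N : ℕ) : 0 < padicNorm p ((N.factorial : ℕ) : ℚ) :=
  lt_of_le_of_ne (padicNorm.nonneg _)
    (Ne.symm (padicNorm.nonzero (by exact_mod_cast Nat.factorial_ne_zero _)))

/-- the factor of the site `m` -/
def PSf (p k m : ℕ) : ℚ := if m = k then 1 else (padicNorm p ((m : ℚ) - k))⁻¹

lemma PSf_nonneg (k m : ℕ) : 0 ≤ PSf p k m := by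
  unfold PSf
  split_ifs
  · exact zero_le_one
  · exact inv_nonneg.2 (padicNorm.nonneg _)

lemma PS_brick {n k : ℕ} (hn : 1 ≤ n) (hk : k ≤ 8 * n) :
    padicNorm p ((((8 * n).factorial : ℕ)) : ℚ) * ∏ m ∈ Finset.Icc 1 (8 * n), PSf p k m ≤
      ((32 * n + 3 : ℕ) : ℚ) ^ 2 := by
  obtain ⟨N, hN⟩ : ∃ N, 8 * n = N + 1 := ⟨8 * n - 1, by omega⟩
  rw [hN]
  have h1 := brick_bound (p := p) 1 N k ((32 * n + 3 : ℕ) : ℚ)
    (by exact_mod_cast (by omega : 1 ≤ 32 * n + 3)) (by exact_mod_cast (by omega : N + 1 ≤ 32 * n + 3))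
    (by exact_mod_cast (by omega : 1 + N ≤ 32 * n + 3)) (by exact_mod_cast (by omega : k ≤ 32 * n + 3))
  rw [show 1 + N = N + 1 by omega] at h1
  have h2 : padicNorm p (((N + 1).factorial : ℕ) : ℚ) ≤ padicNorm p ((N.factorial : ℕ) : ℚ) := by
    rw [Nat.factorial_succ, Nat.cast_mul, padicNorm.mul]
    exact mul_le_of_le_one_left (padicNorm.nonneg _) (padicNorm.of_nat _)
  refine le_trans (mul_le_mul_of_nonneg_right h2 (Finset.prod_nonneg fun m _ => PSf_nonneg k m)) h1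

lemma PS_prod {n k : ℕ} (hk : k ∈ sQ n) :
    ∏ m ∈ (sQ n).erase k, (padicNorm p ((m : ℚ) - k))⁻¹ ^ m2 m =
      (∏ m ∈ Finset.Icc 1 (8 * n), PSf p k m) * (∏ m ∈ Finset.Icc 1 (8 * n), PSf p k m) := by
  have h1 : ∏ m ∈ (sQ n).erase k, (padicNorm p ((m : ℚ) - k))⁻¹ ^ m2 m =
      ∏ m ∈ sQ n, PSf p k m ^ 2 := by
    rw [← Finset.mul_prod_erase _ _ hk]
    rw [show PSf p k k = 1 by simp [PSf], one_pow, one_mul]
    apply Finset.prod_congr rfl
    intro m hm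
    rw [PSf, if_neg (Finset.ne_of_mem_erase hm)]
    rfl
  rw [h1, Finset.prod_pow, sq]
  rfl

lemma PS_zero_PB {n k i : ℕ} (hn : 1 ≤ n) (hk1 : 1 ≤ k) (hk : k ≤ 8 * n) (hi : i < 2 * n) (M : ℚ)
    (hM : ((32 * n + 3 : ℕ) : ℚ) ≤ M) :
    PB p M (padicNorm p (((k + i : ℕ)) : ℚ)) (TS (-(k : ℚ)) (X - C (i : ℚ))) := by
  have hM0 : 0 ≤ M := le_trans (by positivity) hM
  rw [show (X : ℚ[X]) - C (i : ℚ) = X + C (-(i : ℚ)) by rw [C_neg]; ring, TS_lin]
  apply PB.linX hM0 (padicNorm.nonneg _)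
  · apply le_of_eq
    rw [← padicNorm.neg]
    congr 1; push_cast; ring
  · have h3 := norm_inv_le (p := p) (a := ((k + i : ℕ) : ℤ)) (by omega) (M := M) (by
      rw [Int.cast_natCast, abs_of_nonneg (by positivity)]
      refine le_trans ?_ hM
      exact_mod_cast (by omega : k + i ≤ 32 * n + 3))
    rw [Int.cast_natCast] at h3
    have h4 : 0 < padicNorm p ((k + i : ℕ) : ℚ) := by
      refine lt_of_le_of_ne (padicNorm.nonneg _) (Ne.symm (padicNorm.nonzero ?_))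
      exact_mod_cast (by omega : k + i ≠ 0)
    rw [inv_le_iff_one_le_mul₀ h4] at h3
    linarith

lemma PS_num (k L : ℕ) :
    ∏ i ∈ Finset.range L, padicNorm p ((k + i : ℕ) : ℚ) ≤ padicNorm p ((L.factorial : ℕ) : ℚ) := by
  obtain ⟨c, hc⟩ := Nat.factorial_dvd_ascFactorial k L
  have h1 : ∏ i ∈ Finset.range L, padicNorm p ((k + i : ℕ) : ℚ) =
      padicNorm p ((k.ascFactorial L : ℕ) : ℚ) := by
    rw [Nat.ascFactorial_eq_prod_range, Nat.cast_prod, padicNorm_prod']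
  rw [h1, hc, Nat.cast_mul, padicNorm.mul]
  exact mul_le_of_le_one_right (padicNorm.nonneg _) (padicNorm.of_nat c)

lemma PS_PP_PB {n k : ℕ} (hn : 1 ≤ n) (hk : k ∈ sQ n) (M : ℚ) (hM : ((32 * n + 3 : ℕ) : ℚ) ≤ M) :
    PB p M (padicNorm p (((2 * n).factorial : ℕ) : ℚ)) (TS (-(k : ℚ)) (PPn n)) := by
  have hM0 : 0 ≤ M := le_trans (by positivity) hM
  have hk' := hk
  rw [sQ, Finset.mem_Icc] at hk'
  unfold PPn
  rw [map_prod]
  refine PB.mono hM0 (PB.prod (Finset.range (2 * n)) (fun i => padicNorm p ((k + i : ℕ) : ℚ))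
    (fun i => TS (-(k : ℚ)) (X - C (i : ℚ))) hM0 (fun m _ => padicNorm.nonneg _) ?_) (PS_num k (2 * n))
  intro i hi
  rw [Finset.mem_range] at hi
  exact PS_zero_PB hn hk'.1 hk'.2 hi M hM

/-- the constant of the entries -/
def PSU (p n : ℕ) : ℚ := padicNorm p (((2 * n).factorial : ℕ) : ℚ) *
  ((padicNorm p (((8 * n).factorial : ℕ) : ℚ))⁻¹ * (padicNorm p (((8 * n).factorial : ℕ) : ℚ))⁻¹)

lemma PSU_nonneg (n : ℕ) : 0 ≤ PSU p n :=
  mul_nonneg (padicNorm.nonneg _) (mul_nonneg (inv_nonneg.2 (padicNorm.nonneg _))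
    (inv_nonneg.2 (padicNorm.nonneg _)))

lemma PS_pa {n : ℕ} (hn : 1 ≤ n) (E : ℚ[X]) (A : ℚ) (hA : 0 ≤ A) {k : ℕ} (hk : k ∈ sQ n)
    (hE : PB p ((32 * n + 3 : ℕ) : ℚ) A (TS (-(k : ℚ)) E)) (i : ℕ) :
    padicNorm p (pa (sQ n) m2 (PPn n * E) k i) ≤ ((32 * n + 3 : ℕ) : ℚ) ^ 6 * (PSU p n * A) := by
  set M : ℚ := ((32 * n + 3 : ℕ) : ℚ) with hM
  have hM1 : 1 ≤ M := by rw [hM]; exact_mod_cast (by omega : 1 ≤ 32 * n + 3)
  have hM0 : (0 : ℚ) ≤ M := by linarith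
  have hM12 : ((8 * n : ℕ) : ℚ) ≤ M := by rw [hM]; exact_mod_cast (by omega : 8 * n ≤ 32 * n + 3)
  have hk' := hk
  rw [sQ, Finset.mem_Icc] at hk'
  have hU := PSU_nonneg (p := p) n
  unfold pa
  split_ifs with hi
  · set F2 := padicNorm p (((2 * n).factorial : ℕ) : ℚ) with hF2
    set F8 := padicNorm p (((8 * n).factorial : ℕ) : ℚ) with hF8
    have h2 : 0 ≤ F2 := padicNorm.nonneg _
    have h8p : 0 < F8 := PS_fac_pos _
    have hPB : PB p M (F2 * A) (TS (-(k : ℚ)) (PPn n * E)) := by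
      rw [map_mul]
      exact PB.mul hM0 h2 hA (PS_PP_PB hn hk M le_rfl) hE
    have h1 := pfc_bound (p := p) (sQ n) m2 (PPn n * E) k M _
      (fun m => (padicNorm p ((m : ℚ) - k))⁻¹) hM0 (mul_nonneg h2 hA) hPB
      (by
        intro m hm _
        have hmk := Finset.ne_of_mem_erase hm
        have hm2 := Finset.mem_of_mem_erase hm
        rw [sQ, Finset.mem_Icc] at hm2
        refine ⟨le_rfl, ?_⟩
        have h3 := norm_inv_le (p := p) (a := (m : ℤ) - k) (by omega) (M := M) (by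
          push_cast
          have h5 : (m : ℚ) ≤ ((8 * n : ℕ) : ℚ) := by exact_mod_cast (by omega : m ≤ 8 * n)
          have h6 : (k : ℚ) ≤ ((8 * n : ℕ) : ℚ) := by exact_mod_cast (by omega : k ≤ 8 * n)
          have h7 : (0 : ℚ) ≤ m := by positivity
          have h8 : (0 : ℚ) ≤ k := by positivity
          rw [abs_le]
          constructor <;> linarith)
        push_cast at h3
        exact h3)
      (fun m _ => inv_nonneg.2 (padicNorm.nonneg _)) (m2 k - i)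
    refine h1.trans ?_
    rw [PS_prod hk]
    have b3 := PS_brick (p := p) (n := n) (k := k) hn (by omega)
    rw [← hM, ← hF8] at b3
    set G3 := ∏ m ∈ Finset.Icc 1 (8 * n), PSf p k m with hG3
    have g3 : 0 ≤ G3 := Finset.prod_nonneg fun m _ => PSf_nonneg k m
    have b4 : G3 ≤ M ^ 2 * F8⁻¹ := by
      rw [← div_eq_mul_inv, le_div_iff₀ h8p]
      linarith [b3]
    have hml : m2 k - i ≤ 2 := by
      have : m2 k = 2 := rfl
      omega
    have h8 : M ^ (m2 k - i) ≤ M ^ 2 := pow_le_pow_right₀ hM1 hml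
    have i8 : 0 ≤ F8⁻¹ := inv_nonneg.2 h8p.le
    calc F2 * A * (G3 * G3) * M ^ (m2 k - i)
        ≤ F2 * A * ((M ^ 2 * F8⁻¹) * (M ^ 2 * F8⁻¹)) * M ^ 2 := by gcongr
      _ = M ^ 6 * (PSU p n * A) := by
        unfold PSU
        rw [← hF2, ← hF8]
        ring
  · rw [padicNorm.zero]; positivity

lemma PS_scale (x y W : ℚ) (hx : padicNorm p x ≤ 1) (hy : padicNorm p y ≤ W) :
    padicNorm p (x * y) ≤ W := by
  rw [padicNorm.mul]
  exact (mul_le_of_le_one_left (padicNorm.nonneg _) hx).trans hy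

lemma PS_nmul (x y A B : ℚ) (hB : 0 ≤ A) (hx : padicNorm p x ≤ A) (hy : padicNorm p y ≤ B) :
    padicNorm p (x * y) ≤ A * B := by
  rw [padicNorm.mul]
  exact mul_le_mul hx hy (padicNorm.nonneg _) hB

end PSaux

/-- the entries -/
theorem PS_entry {n p σ : ℕ} [Fact p.Prime] (hn : 1 ≤ n) (q : ℕ) (u : ℚ) (hu : UInt q u)
    (hfs : ∀ i k : ℕ, i ≤ 2 → k ≤ 8 * n → padicNorm p (fs σ i k) ≤ ((32 * n + 3 : ℕ) : ℚ) ^ 2)
    (E : ℚ[X]) (A : ℚ) (hA : 0 ≤ A)
    (hE : ∀ k ∈ sQ n, PB p ((32 * n + 3 : ℕ) : ℚ) A (TS (-(k : ℚ)) E)) :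
    padicNorm p ((q : ℚ) * xf n σ u (PPn n * E)) ≤ ((32 * n + 3 : ℕ) : ℚ) ^ 8 * (PSU p n * A) := by
  obtain ⟨hq, z, hz⟩ := hu
  have hpa := fun k hk i => PS_pa (p := p) hn E A hA (k := k) hk (hE k hk) i
  have hM1 : 1 ≤ ((32 * n + 3 : ℕ) : ℚ) := by exact_mod_cast (by omega : 1 ≤ 32 * n + 3)
  have hU := mul_nonneg (PSU_nonneg (p := p) n) hA
  clear hE
  generalize ((32 * n + 3 : ℕ) : ℚ) = M at *
  have hM0 : (0 : ℚ) ≤ M := by linarith
  have hW : 0 ≤ M ^ 8 * (PSU p n * A) := mul_nonneg (pow_nonneg hM0 _) hU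
  have hM6 : 0 ≤ M ^ 6 * (PSU p n * A) := mul_nonneg (pow_nonneg hM0 _) hU
  have hM2 : (1 : ℚ) ≤ M ^ 2 := one_le_pow₀ hM1
  have hui : padicNorm p ((q : ℚ) * u) ≤ 1 := by
    rw [hz]; exact padicNorm.of_int z
  have hqi : padicNorm p (q : ℚ) ≤ 1 := padicNorm.of_nat q
  have e8 : M ^ 6 * (PSU p n * A) * M ^ 2 = M ^ 8 * (PSU p n * A) := by ring
  unfold xf
  rw [Finset.mul_sum]
  apply padicNorm.sum_le' _ hW
  intro k hk
  have hk8 : k ≤ 8 * n := by
    rw [sQ, Finset.mem_Icc] at hk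
    exact hk.2
  have e : (q : ℚ) * (pa (sQ n) m2 (PPn n * E) k 2 * (u - fs σ 2 k) - pa (sQ n) m2 (PPn n * E) k 1 * fs σ 1 k) =
      pa (sQ n) m2 (PPn n * E) k 2 * ((q : ℚ) * u - (q : ℚ) * fs σ 2 k) -
        pa (sQ n) m2 (PPn n * E) k 1 * ((q : ℚ) * fs σ 1 k) := by ring
  rw [e, ← e8]
  refine padicNorm.sub.trans (max_le ?_ ?_)
  · refine PS_nmul _ _ _ _ hM6 (hpa k hk 2) ?_
    refine padicNorm.sub.trans (max_le (hui.trans hM2) ?_)
    exact PS_scale _ _ _ hqi (hfs 2 k le_rfl hk8)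
  · refine PS_nmul _ _ _ _ hM6 (hpa k hk 1) ?_
    exact PS_scale _ _ _ hqi (hfs 1 k (by norm_num) hk8)

/-- polynomials with consecutive zeros -/
def PSP (i : ℕ) : ℚ[X] := ∏ l ∈ Finset.range i, (X + C (l : ℚ))

lemma PSP_monic (i : ℕ) : (PSP i).Monic ∧ (PSP i).natDegree = i := by
  constructor
  · exact monic_prod_of_monic _ _ fun l _ => monic_X_add_C _
  · rw [PSP, natDegree_prod_of_monic _ _ fun l _ => monic_X_add_C _]
    simp only [natDegree_X_add_C, Finset.sum_const, Finset.card_range, smul_eq_mul, mul_one]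

/-- from the entries to the determinant -/
lemma PS_aux {n σ p : ℕ} [Fact p.Prime] (q : ℕ) (u : ℚ) (m : ℕ) (U : ℚ) (hU : 0 ≤ U)
    (h : ∀ i j : ℕ, i < m → j < m →
      padicNorm p ((q : ℚ) * xf n σ u (PPn n * (PSP i * PSP j))) ≤
        U * (padicNorm p ((i.factorial : ℕ) : ℚ) * padicNorm p ((j.factorial : ℕ) : ℚ))) :
    padicNorm p ((q : ℚ) ^ m * DET n σ u m) ≤ U ^ m *
      ∏ i ∈ Finset.range m, padicNorm p ((i.factorial : ℕ) : ℚ) ^ 2 := by
  have h1 : (q : ℚ) ^ m * DET n σ u m =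
      ((q : ℚ) • (Matrix.of fun i j : Fin m => NL n σ u (PSP i * PSP j))).det := by
    rw [Matrix.det_smul, Fintype.card_fin, DET,
      ← Pool.Agent.H336R2.HD.A1_det_monic (NL n σ u) m PSP (fun i _ => PSP_monic i)]
  rw [h1]
  have h2 := Pool.Agent.H336R2.HD.A3_padic_det p m
    ((q : ℚ) • (Matrix.of fun i j : Fin m => NL n σ u (PSP i * PSP j)))
    (fun i => U * padicNorm p ((i.factorial : ℕ) : ℚ) ^ 2) (fun i => mul_nonneg hU (by positivity)) (by
      intro i j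
      have h3 := h i j i.2 j.2
      have h4 : (((q : ℚ) • (Matrix.of fun i j : Fin m => NL n σ u (PSP i * PSP j))) i j) =
          (q : ℚ) * xf n σ u (PPn n * (PSP i * PSP j)) := by
        rw [Matrix.smul_apply, Matrix.of_apply, smul_eq_mul, NL_apply]
      rw [h4]
      calc _ ≤ (U * (padicNorm p ((i.1.factorial : ℕ) : ℚ) * padicNorm p ((j.1.factorial : ℕ) : ℚ))) ^ 2 :=
            pow_le_pow_left₀ (padicNorm.nonneg _) h3 2
        _ = _ := by ring)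
  refine h2.trans (le_of_eq ?_)
  rw [Finset.prod_mul_distrib, Finset.prod_const, Finset.card_range]

theorem PS_det {n p σ : ℕ} [Fact p.Prime] (hn : 1 ≤ n) (q : ℕ) (u : ℚ) (hu : UInt q u)
    (hfs : ∀ i k : ℕ, i ≤ 2 → k ≤ 8 * n → padicNorm p (fs σ i k) ≤ ((32 * n + 3 : ℕ) : ℚ) ^ 2) :
    padicNorm p ((q : ℚ) ^ (7 * n) * DET n σ u (7 * n)) ≤
      (((32 * n + 3 : ℕ) : ℚ) ^ 8 * PSU p n) ^ (7 * n) *
        ∏ i ∈ Finset.range (7 * n), padicNorm p ((i.factorial : ℕ) : ℚ) ^ 2 := by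
  have hM0 : (0 : ℚ) ≤ ((32 * n + 3 : ℕ) : ℚ) := Nat.cast_nonneg _
  have hPB1 : ∀ i : ℕ, i ≤ 14 * n → ∀ k : ℕ,
      PB p ((32 * n + 3 : ℕ) : ℚ) (padicNorm p ((i.factorial : ℕ) : ℚ)) (TS (-(k : ℚ)) (PSP i)) := by
    intro i hi k
    apply Pool.Agent.LZ.C4_PB (n := n) _ (by exact_mod_cast (by omega : 1 ≤ 32 * n + 3)) _ i hi k
    intro l hl1 hl2
    have h1 := norm_inv_le (p := p) (a := (l : ℤ)) (by omega) (M := ((32 * n + 3 : ℕ) : ℚ)) (by
      rw [Int.cast_natCast, abs_of_nonneg (by positivity)]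
      exact_mod_cast (by omega : l ≤ 32 * n + 3))
    rw [Int.cast_natCast] at h1
    exact h1
  have hPB : ∀ i j : ℕ, i < 7 * n → j < 7 * n → ∀ k : ℕ,
      PB p ((32 * n + 3 : ℕ) : ℚ) (padicNorm p ((i.factorial : ℕ) : ℚ) * padicNorm p ((j.factorial : ℕ) : ℚ))
        (TS (-(k : ℚ)) (PSP i * PSP j)) := by
    intro i j hi hj k
    rw [map_mul]
    exact PB.mul hM0 (padicNorm.nonneg _) (padicNorm.nonneg _) (hPB1 i (by omega) k) (hPB1 j (by omega) k)
  refine PS_aux (n := n) (p := p) q u (7 * n) (((32 * n + 3 : ℕ) : ℚ) ^ 8 * PSU p n)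
    (mul_nonneg (pow_nonneg hM0 _) (PSU_nonneg n)) ?_
  intro i j hi hj
  have := PS_entry (p := p) (σ := σ) hn q u hu hfs (PSP i * PSP j) _
    (mul_nonneg (padicNorm.nonneg (p := p) ((i.factorial : ℕ) : ℚ)) (padicNorm.nonneg (p := p) ((j.factorial : ℕ) : ℚ)))
    (fun k _ => hPB i j hi hj k)
  rw [mul_assoc]
  exact this

lemma PS_norm_eq (p : ℕ) [Fact p.Prime] (a : ℕ) (ha : a ≠ 0) :
    padicNorm p ((a : ℕ) : ℚ) = (p : ℚ) ^ (-(padicValNat p a : ℤ)) := by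
  rw [padicNorm.eq_zpow_of_nonzero (by exact_mod_cast ha), padicValRat.of_nat]

/-- final arithmetic -/
theorem PS_fin {n p : ℕ} [Fact p.Prime] (hn : 1 ≤ n)
    (hleg : 14 * n * padicValNat p (8 * n).factorial ≤ 7 * n * padicValNat p (2 * n).factorial +
      4 * padicValNat p (∏ i ∈ Finset.range (7 * n), i.factorial) + 49 * (n * (Nat.log p (32 * n + 3) + 1))) :
    (((32 * n + 3 : ℕ) : ℚ) ^ 8 * PSU p n) ^ (7 * n) *
        ∏ i ∈ Finset.range (7 * n), padicNorm p ((i.factorial : ℕ) : ℚ) ^ 2 ≤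
      (p : ℚ) ^ (2 * padicValNat p (∏ i ∈ Finset.range (7 * n), i.factorial) +
        105 * n * (Nat.log p (32 * n + 3) + 1) : ℕ) := by
  have hp : p.Prime := Fact.out
  have hp1 : (1 : ℚ) ≤ p := by exact_mod_cast hp.one_lt.le
  have hp0 : (p : ℚ) ≠ 0 := by exact_mod_cast hp.ne_zero
  set E := Nat.log p (32 * n + 3) + 1 with hE
  set V := padicValNat p (∏ i ∈ Finset.range (7 * n), i.factorial) with hV
  have hM : ((32 * n + 3 : ℕ) : ℚ) ≤ (p : ℚ) ^ E := by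
    have := (Nat.lt_pow_succ_log_self hp.one_lt (32 * n + 3)).le
    exact_mod_cast this
  have h2 : padicNorm p (((2 * n).factorial : ℕ) : ℚ) = (p : ℚ) ^ (-(padicValNat p (2 * n).factorial : ℤ)) :=
    PS_norm_eq p _ (Nat.factorial_ne_zero _)
  have h8 : padicNorm p (((8 * n).factorial : ℕ) : ℚ) = (p : ℚ) ^ (-(padicValNat p (8 * n).factorial : ℤ)) :=
    PS_norm_eq p _ (Nat.factorial_ne_zero _)
  have h7 : ∏ i ∈ Finset.range (7 * n), padicNorm p ((i.factorial : ℕ) : ℚ) ^ 2 = (p : ℚ) ^ (-(2 * V : ℤ)) := by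
    rw [Finset.prod_pow, ← padicNorm_prod', ← Nat.cast_prod,
      PS_norm_eq p _ (Finset.prod_ne_zero_iff.2 fun i _ => Nat.factorial_ne_zero i), ← hV,
      ← zpow_natCast, ← zpow_mul]
    congr 1
    push_cast
    ring
  have hU : PSU p n = (p : ℚ) ^ (2 * (padicValNat p (8 * n).factorial : ℤ) - padicValNat p (2 * n).factorial) := by
    unfold PSU
    rw [h2, h8, ← zpow_neg, ← zpow_add₀ hp0, ← zpow_add₀ hp0]
    congr 1
    ring
  have hU0 := PSU_nonneg (p := p) n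
  have hM0 : (0 : ℚ) ≤ ((32 * n + 3 : ℕ) : ℚ) := Nat.cast_nonneg _
  calc (((32 * n + 3 : ℕ) : ℚ) ^ 8 * PSU p n) ^ (7 * n) *
        ∏ i ∈ Finset.range (7 * n), padicNorm p ((i.factorial : ℕ) : ℚ) ^ 2
      ≤ (((p : ℚ) ^ E) ^ 8 * PSU p n) ^ (7 * n) *
        ∏ i ∈ Finset.range (7 * n), padicNorm p ((i.factorial : ℕ) : ℚ) ^ 2 := by
          have : 0 ≤ ∏ i ∈ Finset.range (7 * n), padicNorm p ((i.factorial : ℕ) : ℚ) ^ 2 :=
            Finset.prod_nonneg fun i _ => by positivity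
          gcongr
    _ = (p : ℚ) ^ (((E : ℤ) * 8 + (2 * (padicValNat p (8 * n).factorial : ℤ) - padicValNat p (2 * n).factorial)) *
          ((7 * n : ℕ) : ℤ) + -(2 * V : ℤ)) := by
          rw [h7, hU, ← zpow_natCast (p : ℚ) E, ← zpow_natCast ((p : ℚ) ^ (E : ℤ)) 8, ← zpow_mul,
            ← zpow_add₀ hp0, ← zpow_natCast _ (7 * n), ← zpow_mul, ← zpow_add₀ hp0]
          norm_num
    _ ≤ (p : ℚ) ^ ((2 * V + 105 * n * E : ℕ) : ℤ) := by
          apply zpow_le_zpow_right₀ hp1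
          have hl : (14 : ℤ) * n * padicValNat p (8 * n).factorial ≤ 7 * n * padicValNat p (2 * n).factorial +
              4 * V + 49 * (n * E) := by exact_mod_cast hleg
          push_cast
          nlinarith [hl]
    _ = _ := by rw [zpow_natCast]

/-- the small primes -/
theorem P_small : ∃ C : ℕ, ∀ (n σ q p : ℕ) (u : ℚ), 1 ≤ n → σ = 1 ∨ σ = 3 → UInt q u → p.Prime →
    padicNorm p ((q : ℚ) ^ (7 * n) * DET n σ u (7 * n)) ≤
      (p : ℚ) ^ (2 * padicValNat p (∏ i ∈ Finset.range (7 * n), i.factorial) +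
        C * n * (Nat.log p (32 * n + 3) + 1) : ℕ) := by
  refine ⟨105, fun n σ q p u hn hσ hu hp => ?_⟩
  have : Fact p.Prime := ⟨hp⟩
  exact (PS_det hn q u hu fun i k hi hk => PS_fs p n σ i k hσ hi hk).trans (PS_fin hn (PS_leg p n hn))

end

end Pool.Agent.H397R2.QG
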